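import Pool.Agent.Helper56.CP.Stmts

set_option autoImplicit false

/-!
CP, module AB: the prime zeta function near `1` from Mertens' second theorem (upper bound).
-/

open Finset Filter Topology MeasureTheory Set

namespace Pool.Agent.Helper15.CP

open Pool.Agent.Helper56.CP

/-- The integral of `log u exp (-u)`. -/
theorem integral_log_exp :
    ∫ u : ℝ in Ioi 0, Real.log u * Real.exp (-u) = - Real.eulerMascheroniConstant := by
  have h1 : HasDerivAt Complex.GammaIntegral
      (∫ t : ℝ in Ioi 0, (t : ℂ) ^ ((1 : ℂ) - 1) * (Real.log t * Real.exp (-t))) 1 :=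
    Complex.hasDerivAt_GammaIntegral (s := 1) (by simp)
  have h2 : Complex.Gamma =ᶠ[𝓝 (1 : ℂ)] Complex.GammaIntegral := by
    have : {z : ℂ | 0 < z.re} ∈ 𝓝 (1 : ℂ) :=
      (isOpen_lt continuous_const Complex.continuous_re).mem_nhds (by simp)
    filter_upwards [this] with z hz
    exact Complex.Gamma_eq_integral hz
  have h3 := (h1.congr_of_eventuallyEq h2).unique Complex.hasDerivAt_Gamma_one
  simp only [sub_self, Complex.cpow_zero, one_mul] at h3
  have h4 : ∫ t : ℝ in Ioi 0, ((Real.log t : ℂ) * (Real.exp (-t) : ℂ))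
      = ((∫ u : ℝ in Ioi 0, Real.log u * Real.exp (-u) : ℝ) : ℂ) := by
    rw [← integral_complex_ofReal]
    simp
  rw [h4] at h3
  exact_mod_cast h3

theorem integrable_log_exp :
    IntegrableOn (fun u : ℝ => Real.log u * Real.exp (-u)) (Ioi 0) := by
  by_contra h
  have h1 := integral_undef h
  rw [integral_log_exp] at h1
  have := Real.one_half_lt_eulerMascheroniConstant
  linarith

theorem integrable_inv_sqrt_exp :
    IntegrableOn (fun u : ℝ => Real.exp (-u) * u ^ ((1 : ℝ) / 2 - 1)) (Ioi 0) :=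
  Real.GammaIntegral_convergent (by norm_num)

theorem st_AB : ST_AB := by
  intro M hM ε hε
  -- `g`
  set g : ℕ → ℝ := fun n => ∑ p ∈ PP n, 1 / (p : ℝ) with hg
  have hgmono : Monotone g := by
    intro a b hab
    apply Finset.sum_le_sum_of_subset_of_nonneg
    · intro p hp
      simp only [PP, Finset.mem_filter, Finset.mem_range] at hp ⊢
      exact ⟨by omega, hp.2⟩
    · intros; positivity
  have hg0 : ∀ n, 0 ≤ g n := fun n => Finset.sum_nonneg (fun _ _ => by positivity)
  set η : ℝ := ε / 2 with hη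
  -- threshold
  obtain ⟨T0, hT0⟩ : ∃ T0 : ℕ, ∀ n ≥ T0, g n - Real.log (Real.log n) ≤ M + η := by
    have := (hM.eventually (gt_mem_nhds (show M < M + η by linarith [half_pos hε]))).exists_forall_of_atTop
    obtain ⟨T0, h⟩ := this
    exact ⟨T0, fun n hn => (h n hn).le⟩
  set T : ℕ := max T0 3 with hT
  have hT3 : 3 ≤ T := le_max_right _ _
  set L : ℝ := Real.log T with hL
  have hLpos : 0 < L := Real.log_pos (by exact_mod_cast (by omega : 1 < T))
  set C : ℝ := g T with hC
  have hC0 : 0 ≤ C := hg0 T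
  set K : ℝ := (C + |M + η|) * Real.sqrt L + 2 with hK
  have hK0 : 0 ≤ K := by positivity
  -- pointwise bound for `g (floor (exp v))`
  have hpt : ∀ v : ℝ, 0 < v → g ⌊Real.exp v⌋₊ ≤ Real.log v + (M + η) + K * v ^ ((1 : ℝ) / 2 - 1) := by
    intro v hv
    have hvp : 0 < v ^ ((1 : ℝ) / 2 - 1) := Real.rpow_pos_of_pos hv _
    rcases le_or_gt L v with h | h
    · have h1 : (T : ℝ) ≤ Real.exp v := by
        have : Real.exp L = T := Real.exp_log (by positivity)
        rw [← this]; exact Real.exp_le_exp.mpr h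
      have h2 : T ≤ ⌊Real.exp v⌋₊ := Nat.le_floor h1
      have h3 := hT0 ⌊Real.exp v⌋₊ (le_trans (le_max_left _ _) h2)
      have h4 : (⌊Real.exp v⌋₊ : ℝ) ≤ Real.exp v := Nat.floor_le (Real.exp_pos v).le
      have h5 : (3 : ℝ) ≤ (⌊Real.exp v⌋₊ : ℝ) := by exact_mod_cast hT3.trans h2
      have h6 : Real.log (⌊Real.exp v⌋₊ : ℝ) ≤ v := by
        have := Real.log_le_log (by linarith) h4
        rwa [Real.log_exp] at this
      have h7 : 0 < Real.log (⌊Real.exp v⌋₊ : ℝ) := Real.log_pos (by linarith)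
      have h8 := Real.log_le_log h7 h6
      have h9 : 0 ≤ K * v ^ ((1 : ℝ) / 2 - 1) := by positivity
      linarith
    · have h1 : ⌊Real.exp v⌋₊ ≤ T := by
        have h2 : Real.exp v ≤ T := by
          have : Real.exp L = T := Real.exp_log (by positivity)
          rw [← this]; exact Real.exp_le_exp.mpr h.le
        have := Nat.floor_le_floor h2
        simpa using this
      have h2 : g ⌊Real.exp v⌋₊ ≤ C := hgmono h1
      have hs : v ^ ((1 : ℝ) / 2 - 1) = (Real.sqrt v)⁻¹ := by
        rw [Real.sqrt_eq_rpow, ← Real.rpow_neg hv.le]; norm_num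
      rw [hs]
      have hsv : 0 < Real.sqrt v := Real.sqrt_pos.mpr hv
      have h3 : - Real.log v ≤ 2 * (Real.sqrt v)⁻¹ := by
        have h4 : Real.log v = 2 * Real.log (Real.sqrt v) := by
          rw [Real.log_sqrt hv.le]; ring
        have h5 : Real.log ((Real.sqrt v)⁻¹) ≤ (Real.sqrt v)⁻¹ - 1 :=
          Real.log_le_sub_one_of_pos (inv_pos.mpr hsv)
        rw [Real.log_inv] at h5
        have h6 : 0 < (Real.sqrt v)⁻¹ := inv_pos.mpr hsv
        linarith
      have h4 : 1 ≤ Real.sqrt L * (Real.sqrt v)⁻¹ := by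
        rw [← div_eq_mul_inv, le_div_iff₀ hsv, one_mul]
        exact Real.sqrt_le_sqrt h.le
      have h5 : C + |M + η| ≤ (C + |M + η|) * (Real.sqrt L * (Real.sqrt v)⁻¹) := by
        have : 0 ≤ C + |M + η| := by positivity
        nlinarith
      have h6 : K * (Real.sqrt v)⁻¹ = (C + |M + η|) * (Real.sqrt L * (Real.sqrt v)⁻¹)
          + 2 * (Real.sqrt v)⁻¹ := by rw [hK]; ring
      have h7 := neg_abs_le (M + η)
      rw [h6]
      linarith
  -- the bound for a given `δ`
  have key : ∀ δ : ℝ, 0 < δ → ∑' p : Nat.Primes, (p : ℝ) ^ (-(1 + δ)) ≤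
      - Real.log δ + (M + η) - Real.eulerMascheroniConstant
        + K * δ ^ ((1 : ℝ) / 2) * Real.Gamma (1 / 2) := by
    intro δ hδ
    set F : ℝ → ℝ := fun u => Real.log u * Real.exp (-u) + (- Real.log δ + (M + η)) * Real.exp (-u)
      + K * δ ^ ((1 : ℝ) / 2) * (Real.exp (-u) * u ^ ((1 : ℝ) / 2 - 1)) with hF
    have hi1 : IntegrableOn (fun u : ℝ => Real.exp (-u)) (Ioi 0) := integrableOn_exp_neg_Ioi 0
    have hi2 : IntegrableOn (fun u : ℝ => (- Real.log δ + (M + η)) * Real.exp (-u)) (Ioi 0) :=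
      hi1.const_mul _
    have hi3 : IntegrableOn (fun u : ℝ => K * δ ^ ((1 : ℝ) / 2) *
        (Real.exp (-u) * u ^ ((1 : ℝ) / 2 - 1))) (Ioi 0) := integrable_inv_sqrt_exp.const_mul _
    have hi4 : IntegrableOn (fun u : ℝ => Real.log u * Real.exp (-u)
        + (- Real.log δ + (M + η)) * Real.exp (-u)) (Ioi 0) := integrable_log_exp.add hi2
    have hFi : IntegrableOn F (Ioi 0) := hi4.add hi3
    have hFint : ∫ u in Ioi 0, F u = - Real.log δ + (M + η) - Real.eulerMascheroniConstant
        + K * δ ^ ((1 : ℝ) / 2) * Real.Gamma (1 / 2) := by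
      rw [hF, integral_add hi4 hi3, integral_add integrable_log_exp hi2, integral_const_mul,
        integral_const_mul, integral_log_exp, integral_exp_neg_Ioi_zero,
        Real.Gamma_eq_integral (by norm_num : (0 : ℝ) < 1 / 2)]
      ring
    rw [← hFint]
    refine Real.tsum_le_of_sum_le (fun p => by positivity) ?_
    intro S
    -- each term as an integral
    have hterm : ∀ p : Nat.Primes, (p : ℝ) ^ (-(1 + δ)) =
        ∫ u in Ioi 0, (Ioi (δ * Real.log (p : ℝ))).indicator
          (fun u => (1 / (p : ℝ)) * Real.exp (-u)) u := by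
      intro p
      have hp0 : (0 : ℝ) < (p : ℝ) := by exact_mod_cast p.2.pos
      have hp1 : (1 : ℝ) ≤ (p : ℝ) := by exact_mod_cast p.2.one_lt.le
      have hl : 0 ≤ δ * Real.log (p : ℝ) := mul_nonneg hδ.le (Real.log_nonneg hp1)
      rw [setIntegral_indicator measurableSet_Ioi]
      have hint : Ioi (0 : ℝ) ∩ Ioi (δ * Real.log (p : ℝ)) = Ioi (δ * Real.log (p : ℝ)) := by
        apply Set.inter_eq_right.mpr
        exact Set.Ioi_subset_Ioi hl
      rw [hint, integral_const_mul, integral_exp_neg_Ioi]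
      rw [show -(1 + δ) = -1 + -δ by ring, Real.rpow_add hp0, Real.rpow_neg_one]
      rw [Real.rpow_def_of_pos hp0 (-δ)]
      rw [one_div]
      congr 2
      ring
    have hti : ∀ p : Nat.Primes, IntegrableOn (fun u => (Ioi (δ * Real.log (p : ℝ))).indicator
          (fun u => (1 / (p : ℝ)) * Real.exp (-u)) u) (Ioi 0) := by
      intro p
      exact (hi1.const_mul _).indicator measurableSet_Ioi
    rw [Finset.sum_congr rfl (fun p _ => hterm p), ← integral_finsetSum S (fun p _ => hti p)]
    apply setIntegral_mono_on (integrable_finsetSum S (fun p _ => hti p)) hFi measurableSet_Ioi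
    intro u hu
    have hu0 : (0 : ℝ) < u := hu
    -- pointwise
    have h1 : ∑ p ∈ S, (Ioi (δ * Real.log (p : ℝ))).indicator
          (fun u => (1 / (p : ℝ)) * Real.exp (-u)) u ≤ g ⌊Real.exp (u / δ)⌋₊ * Real.exp (-u) := by
      have h2 : ∑ p ∈ S, (Ioi (δ * Real.log (p : ℝ))).indicator
          (fun u => (1 / (p : ℝ)) * Real.exp (-u)) u =
          (∑ p ∈ S.filter (fun p : Nat.Primes => δ * Real.log (p : ℝ) < u), 1 / (p : ℝ))
            * Real.exp (-u) := by
        rw [Finset.sum_mul, Finset.sum_filter]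
        apply Finset.sum_congr rfl
        intro p _
        by_cases hpu : δ * Real.log (p : ℝ) < u
        · rw [if_pos hpu, Set.indicator_of_mem (Set.mem_Ioi.mpr hpu)]
        · rw [if_neg hpu, Set.indicator_of_notMem (fun h => hpu (Set.mem_Ioi.mp h))]
      rw [h2]
      apply mul_le_mul_of_nonneg_right _ (Real.exp_pos _).le
      have h3 : ∑ p ∈ S.filter (fun p : Nat.Primes => δ * Real.log (p : ℝ) < u), 1 / (p : ℝ)
          = ∑ n ∈ (S.filter (fun p : Nat.Primes => δ * Real.log (p : ℝ) < u)).image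
              (fun p : Nat.Primes => (p : ℕ)), 1 / (n : ℝ) := by
        rw [Finset.sum_image]
        intro a _ b _ hab
        exact Nat.Primes.coe_nat_injective hab
      rw [h3]
      apply Finset.sum_le_sum_of_subset_of_nonneg
      · intro n hn
        rw [Finset.mem_image] at hn
        obtain ⟨p, hp, rfl⟩ := hn
        rw [Finset.mem_filter] at hp
        simp only [PP, Finset.mem_filter, Finset.mem_range]
        refine ⟨?_, p.2⟩
        have hp0 : (0 : ℝ) < (p : ℝ) := by exact_mod_cast p.2.pos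
        have h4 : Real.log (p : ℝ) ≤ u / δ := by
          rw [le_div_iff₀ hδ]; linarith [hp.2]
        have h5 : (p : ℝ) ≤ Real.exp (u / δ) := by
          rw [← Real.exp_log hp0]; exact Real.exp_le_exp.mpr h4
        have h6 : (p : ℕ) ≤ ⌊Real.exp (u / δ)⌋₊ := Nat.le_floor h5
        omega
      · intros; positivity
    refine h1.trans ?_
    have h2 := hpt (u / δ) (div_pos hu0 hδ)
    have h3 : Real.log (u / δ) = Real.log u - Real.log δ := Real.log_div hu0.ne' hδ.ne'
    have h4 : (u / δ) ^ ((1 : ℝ) / 2 - 1) = δ ^ ((1 : ℝ) / 2) * u ^ ((1 : ℝ) / 2 - 1) := by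
      rw [Real.div_rpow hu0.le hδ.le, div_eq_mul_inv, ← Real.rpow_neg hδ.le, mul_comm]
      norm_num
    rw [h3, h4] at h2
    have h5 := mul_le_mul_of_nonneg_right h2 (Real.exp_pos (-u)).le
    refine h5.trans (le_of_eq ?_)
    rw [hF]; ring
  -- the error term tends to zero
  have hlim : Tendsto (fun s : ℝ => K * (s - 1) ^ ((1 : ℝ) / 2) * Real.Gamma (1 / 2))
      (𝓝[>] 1) (𝓝 0) := by
    have h1 : ContinuousAt (fun s : ℝ => K * (s - 1) ^ ((1 : ℝ) / 2) * Real.Gamma (1 / 2)) 1 := by
      apply ContinuousAt.mul _ continuousAt_const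
      apply ContinuousAt.mul continuousAt_const
      apply ContinuousAt.rpow_const (by fun_prop)
      right; norm_num
    have h2 := h1.tendsto
    simp only [sub_self] at h2
    rw [Real.zero_rpow (by norm_num)] at h2
    simp only [mul_zero, zero_mul] at h2
    exact h2.mono_left nhdsWithin_le_nhds
  have hev := hlim.eventually (gt_mem_nhds (show (0 : ℝ) < ε / 2 by linarith [half_pos hε]))
  filter_upwards [hev, self_mem_nhdsWithin] with s hs hs1
  have hs1' : (0 : ℝ) < s - 1 := by
    have : (1 : ℝ) < s := hs1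
    linarith
  have := key (s - 1) hs1'
  rw [show (1 : ℝ) + (s - 1) = s by ring] at this
  linarith

end Pool.Agent.Helper15.CP
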